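import Pool.Agent.V7H51.PK.Data

set_option autoImplicit false

/-!
# The constraint problem of the gadget has no solution
-/

namespace Pool.Agent.V7H51.PK

theorem chk0 : chk (lv 0) (lv 1) = true := by decide +kernel
theorem chk1 : chk (lv 1) (lv 2) = true := by decide +kernel
theorem chk2 : chk (lv 2) (lv 3) = true := by decide +kernel
theorem chk3 : chk (lv 3) (lv 4) = true := by decide +kernel
theorem chk4 : chk (lv 4) (lv 5) = true := by decide +kernel

theorem chk_start : (P5.all fun z => (!(dz z ids && dz z (lv 0).rho)) || (lv 0).K.contains z) =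
    true := by decide +kernel

theorem chk_all (r : ℕ) (hr : r < 5) : chk (lv r) (lv (r + 1)) = true := by
  interval_cases r
  · exact chk0
  · exact chk1
  · exact chk2
  · exact chk3
  · exact chk4

theorem noExt_false {p q r u : List ℕ} (hu : u ∈ P5) (h1 : dz u p = true) (h2 : dz u q = true)
    (h3 : dz u r = true) : noExt p q r = false := by
  by_contra hc
  rw [Bool.not_eq_false] at hc
  unfold noExt at hc
  rw [List.all_eq_true] at hc
  have := hc u hu
  rw [h1, h2, h3] at this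
  simp at this

theorem step {A B : Lv} (h : chk A B = true) {z w : List ℕ} (hw : w ∈ P5)
    (h1 : dz w ids = true) (h2 : dz w B.rho = true) (h3 : dz w (ap A.sg z) = true)
    (h4 : w ∉ B.K) (hp : ∃ u ∈ P5, dz u ids = true ∧ dz u (ap A.g z) = true ∧
      dz u (ap A.h w) = true)
    (hm : ∃ u ∈ P5, dz u ids = true ∧ dz u (ap A.g2 z) = true ∧ dz u (ap A.h2 w) = true) :
    z ∉ A.K := by
  intro hz
  unfold chk at h
  rw [List.all_eq_true] at h
  have h5 := h z hz
  rw [List.all_eq_true] at h5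
  have h6 := h5 w hw
  obtain ⟨u, hu, u1, u2, u3⟩ := hp
  obtain ⟨v, hv, v1, v2, v3⟩ := hm
  rw [noExt_false hu u1 u2 u3, noExt_false hv v1 v2 v3, h1, h2, h3] at h6
  have h7 : B.K.contains w = false := by
    rw [Bool.eq_false_iff]
    intro hc
    exact h4 (List.contains_iff_mem.mp hc)
  rw [h7] at h6
  simp at h6

/-- **The gadget.** There are no states of the six chain vertices and the ten side vertices that
satisfy all constraints. -/
theorem no_config (z : ℕ → List ℕ) (hz : ∀ r ≤ 5, z r ∈ P5)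
    (h1 : ∀ r ≤ 5, dz (z r) ids = true) (h2 : ∀ r ≤ 5, dz (z r) (lv r).rho = true)
    (h3 : ∀ r < 5, dz (z (r + 1)) (ap (lv r).sg (z r)) = true)
    (hp : ∀ r < 5, ∃ u ∈ P5, dz u ids = true ∧ dz u (ap (lv r).g (z r)) = true ∧
      dz u (ap (lv r).h (z (r + 1))) = true)
    (hm : ∀ r < 5, ∃ u ∈ P5, dz u ids = true ∧ dz u (ap (lv r).g2 (z r)) = true ∧
      dz u (ap (lv r).h2 (z (r + 1))) = true) : False := by
  have key : ∀ i ≤ 5, z (5 - i) ∉ (lv (5 - i)).K := by
    intro i
    induction i with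
    | zero =>
      intro _
      simp [lv, l5]
    | succ i ih =>
      intro hi
      have e : 5 - i = (5 - (i + 1)) + 1 := by omega
      have h4 := ih (by omega)
      have hr : 5 - (i + 1) < 5 := by omega
      rw [e] at h4
      exact step (chk_all _ hr) (hz _ (by omega)) (h1 _ (by omega)) (h2 _ (by omega))
        (h3 _ hr) h4 (hp _ hr) (hm _ hr)
  have h0 := key 5 le_rfl
  have hs := chk_start
  rw [List.all_eq_true] at hs
  have h5 := hs (z 0) (hz 0 (by omega))
  rw [h1 0 (by omega), h2 0 (by omega)] at h5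
  simp only [Bool.and_self, Bool.not_true, Bool.false_or] at h5
  exact h0 (List.contains_iff_mem.mp h5)

/-! ### lists of permutations -/

/-- the list of values -/
def toL (f : Fin 5 → Fin 5) : List ℕ := [(f 0).1, (f 1).1, (f 2).1, (f 3).1, (f 4).1]

theorem mem_P5_aux : ∀ a b c d e : Fin 5, (a ≠ b ∧ a ≠ c ∧ b ≠ c ∧ a ≠ d ∧ b ≠ d ∧ c ≠ d ∧ a ≠ e ∧
    b ≠ e ∧ c ≠ e ∧ d ≠ e) → P5.contains [a.1, b.1, c.1, d.1, e.1] = true := by decide +kernel

theorem toL_mem (p : Equiv.Perm (Fin 5)) : toL p ∈ P5 := by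
  have hi := p.injective
  exact List.contains_iff_mem.mp (mem_P5_aux _ _ _ _ _ ⟨hi.ne (by decide), hi.ne (by decide),
    hi.ne (by decide), hi.ne (by decide), hi.ne (by decide), hi.ne (by decide),
    hi.ne (by decide), hi.ne (by decide), hi.ne (by decide), hi.ne (by decide)⟩)

theorem dz_toL {f g : Fin 5 → Fin 5} (h : ∀ i, f i ≠ g i) : dz (toL f) (toL g) = true := by
  have h' : ∀ i, Nat.beq (f i).1 (g i).1 = false := by
    intro i
    rw [← Bool.not_eq_true]
    intro hc
    exact h i (Fin.ext (Nat.eq_of_beq_eq_true hc))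
  simp [dz, toL, h']

theorem ap_toL (g f : Fin 5 → Fin 5) : ap (toL g) (toL f) = toL (g ∘ f) := by
  have h : ∀ i : Fin 5, (toL g).getD i.1 0 = (g i).1 := by
    intro i
    fin_cases i <;> rfl
  simp only [ap, toL, List.map_cons, List.map_nil, Function.comp] at h ⊢
  rw [h, h, h, h, h]

theorem toL_id : toL (1 : Equiv.Perm (Fin 5)) = ids := rfl

theorem rho_toL (r : ℕ) (hr : r ≤ 5) : toL (rhoP r) = (lv r).rho := by
  interval_cases r <;> rfl
theorem sg_toL (r : ℕ) (hr : r ≤ 5) : toL (sgP r) = (lv r).sg := by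
  interval_cases r <;> rfl
theorem g_toL (r : ℕ) (hr : r ≤ 5) : toL (gP r) = (lv r).g := by
  interval_cases r <;> rfl
theorem h_toL (r : ℕ) (hr : r ≤ 5) : toL (hP r) = (lv r).h := by
  interval_cases r <;> rfl
theorem g2_toL (r : ℕ) (hr : r ≤ 5) : toL (g2P r) = (lv r).g2 := by
  interval_cases r <;> rfl
theorem h2_toL (r : ℕ) (hr : r ≤ 5) : toL (h2P r) = (lv r).h2 := by
  interval_cases r <;> rfl

/-- The gadget, in terms of permutations: chain vertices `z 0, …, z 5`, side vertices `u r`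
(adjacent to `a`) and `v r` (adjacent to `b`). -/
theorem no_perms (z u v : ℕ → Equiv.Perm (Fin 5))
    (h1 : ∀ r ≤ 5, ∀ i, z r i ≠ i) (h2 : ∀ r ≤ 5, ∀ i, z r i ≠ rhoP r i)
    (h3 : ∀ r < 5, ∀ i, z (r + 1) i ≠ sgP r (z r i))
    (hu0 : ∀ r < 5, ∀ i, u r i ≠ i) (hu1 : ∀ r < 5, ∀ i, u r i ≠ gP r (z r i))
    (hu2 : ∀ r < 5, ∀ i, u r i ≠ hP r (z (r + 1) i))
    (hv0 : ∀ r < 5, ∀ i, v r i ≠ i) (hv1 : ∀ r < 5, ∀ i, v r i ≠ g2P r (z r i))
    (hv2 : ∀ r < 5, ∀ i, v r i ≠ h2P r (z (r + 1) i)) : False := by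
  refine no_config (fun r => toL (z r)) (fun r _ => toL_mem _) ?_ ?_ ?_ ?_ ?_
  · intro r hr
    rw [← toL_id]
    exact dz_toL (h1 r hr)
  · intro r hr
    rw [← rho_toL r hr]
    exact dz_toL (h2 r hr)
  · intro r hr
    rw [← sg_toL r (by omega), ap_toL]
    exact dz_toL (h3 r hr)
  · intro r hr
    refine ⟨toL (u r), toL_mem _, ?_, ?_, ?_⟩
    · rw [← toL_id]
      exact dz_toL (hu0 r hr)
    · rw [← g_toL r (by omega), ap_toL]
      exact dz_toL (hu1 r hr)
    · rw [← h_toL r (by omega), ap_toL]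
      exact dz_toL (hu2 r hr)
  · intro r hr
    refine ⟨toL (v r), toL_mem _, ?_, ?_, ?_⟩
    · rw [← toL_id]
      exact dz_toL (hv0 r hr)
    · rw [← g2_toL r (by omega), ap_toL]
      exact dz_toL (hv1 r hr)
    · rw [← h2_toL r (by omega), ap_toL]
      exact dz_toL (hv2 r hr)

end Pool.Agent.V7H51.PK
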