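import Mathlib

set_option autoImplicit false

/-!
# A constraint problem on permutations of five colours without a solution
-/

namespace Pool.Agent.V7H51.PK

/-- the permutations of `0, 1, 2, 3, 4` as lists -/
def P5 : List (List ℕ) := [
  [0, 1, 2, 3, 4], [0, 1, 2, 4, 3], [0, 1, 3, 2, 4], [0, 1, 3, 4, 2], [0, 1, 4, 2, 3], [0, 1, 4, 3, 2],
  [0, 2, 1, 3, 4], [0, 2, 1, 4, 3], [0, 2, 3, 1, 4], [0, 2, 3, 4, 1], [0, 2, 4, 1, 3], [0, 2, 4, 3, 1],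
  [0, 3, 1, 2, 4], [0, 3, 1, 4, 2], [0, 3, 2, 1, 4], [0, 3, 2, 4, 1], [0, 3, 4, 1, 2], [0, 3, 4, 2, 1],
  [0, 4, 1, 2, 3], [0, 4, 1, 3, 2], [0, 4, 2, 1, 3], [0, 4, 2, 3, 1], [0, 4, 3, 1, 2], [0, 4, 3, 2, 1],
  [1, 0, 2, 3, 4], [1, 0, 2, 4, 3], [1, 0, 3, 2, 4], [1, 0, 3, 4, 2], [1, 0, 4, 2, 3], [1, 0, 4, 3, 2],
  [1, 2, 0, 3, 4], [1, 2, 0, 4, 3], [1, 2, 3, 0, 4], [1, 2, 3, 4, 0], [1, 2, 4, 0, 3], [1, 2, 4, 3, 0],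
  [1, 3, 0, 2, 4], [1, 3, 0, 4, 2], [1, 3, 2, 0, 4], [1, 3, 2, 4, 0], [1, 3, 4, 0, 2], [1, 3, 4, 2, 0],
  [1, 4, 0, 2, 3], [1, 4, 0, 3, 2], [1, 4, 2, 0, 3], [1, 4, 2, 3, 0], [1, 4, 3, 0, 2], [1, 4, 3, 2, 0],
  [2, 0, 1, 3, 4], [2, 0, 1, 4, 3], [2, 0, 3, 1, 4], [2, 0, 3, 4, 1], [2, 0, 4, 1, 3], [2, 0, 4, 3, 1],
  [2, 1, 0, 3, 4], [2, 1, 0, 4, 3], [2, 1, 3, 0, 4], [2, 1, 3, 4, 0], [2, 1, 4, 0, 3], [2, 1, 4, 3, 0],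
  [2, 3, 0, 1, 4], [2, 3, 0, 4, 1], [2, 3, 1, 0, 4], [2, 3, 1, 4, 0], [2, 3, 4, 0, 1], [2, 3, 4, 1, 0],
  [2, 4, 0, 1, 3], [2, 4, 0, 3, 1], [2, 4, 1, 0, 3], [2, 4, 1, 3, 0], [2, 4, 3, 0, 1], [2, 4, 3, 1, 0],
  [3, 0, 1, 2, 4], [3, 0, 1, 4, 2], [3, 0, 2, 1, 4], [3, 0, 2, 4, 1], [3, 0, 4, 1, 2], [3, 0, 4, 2, 1],
  [3, 1, 0, 2, 4], [3, 1, 0, 4, 2], [3, 1, 2, 0, 4], [3, 1, 2, 4, 0], [3, 1, 4, 0, 2], [3, 1, 4, 2, 0],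
  [3, 2, 0, 1, 4], [3, 2, 0, 4, 1], [3, 2, 1, 0, 4], [3, 2, 1, 4, 0], [3, 2, 4, 0, 1], [3, 2, 4, 1, 0],
  [3, 4, 0, 1, 2], [3, 4, 0, 2, 1], [3, 4, 1, 0, 2], [3, 4, 1, 2, 0], [3, 4, 2, 0, 1], [3, 4, 2, 1, 0],
  [4, 0, 1, 2, 3], [4, 0, 1, 3, 2], [4, 0, 2, 1, 3], [4, 0, 2, 3, 1], [4, 0, 3, 1, 2], [4, 0, 3, 2, 1],
  [4, 1, 0, 2, 3], [4, 1, 0, 3, 2], [4, 1, 2, 0, 3], [4, 1, 2, 3, 0], [4, 1, 3, 0, 2], [4, 1, 3, 2, 0],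
  [4, 2, 0, 1, 3], [4, 2, 0, 3, 1], [4, 2, 1, 0, 3], [4, 2, 1, 3, 0], [4, 2, 3, 0, 1], [4, 2, 3, 1, 0],
  [4, 3, 0, 1, 2], [4, 3, 0, 2, 1], [4, 3, 1, 0, 2], [4, 3, 1, 2, 0], [4, 3, 2, 0, 1], [4, 3, 2, 1, 0]]

/-- different at all places -/
def dz : List ℕ → List ℕ → Bool
  | a :: l, b :: m => (!(Nat.beq a b)) && dz l m
  | _, _ => true

/-- the composition `g ∘ z` -/
def ap (g z : List ℕ) : List ℕ := z.map (fun c => g.getD c 0)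

def ids : List ℕ := [0, 1, 2, 3, 4]

/-- no permutation is different from `p`, `q` and `r` at all places -/
def noExt (p q r : List ℕ) : Bool := P5.all (fun u => !(dz u p && (dz u q && dz u r)))

/-- the data of one chain vertex and of the step to the next chain vertex -/
structure Lv where
  rho : List ℕ
  sg : List ℕ
  g : List ℕ
  h : List ℕ
  g2 : List ℕ
  h2 : List ℕ
  K : List (List ℕ)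

/-- the states `K` at `A` are excluded if the states `K` at `B` are -/
def chk (A B : Lv) : Bool :=
  A.K.all fun z => P5.all fun w =>
    (!(dz w ids && (dz w B.rho && (dz w (ap A.sg z) && !(B.K.contains w))))) ||
      (noExt ids (ap A.g z) (ap A.h w) || noExt ids (ap A.g2 z) (ap A.h2 w))

def l0 : Lv where
  rho := [2, 3, 4, 1, 0]
  sg := [0, 2, 3, 4, 1]
  g := [0, 4, 1, 2, 3]
  h := [1, 2, 0, 4, 3]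
  g2 := [1, 0, 3, 2, 4]
  h2 := [3, 0, 1, 2, 4]
  K := [[1, 0, 3, 4, 2], [1, 2, 0, 4, 3], [1, 4, 0, 2, 3], [1, 4, 3, 0, 2], [3, 0, 1, 4, 2], [3, 2, 0, 4, 1], [3, 4, 0, 2, 1], [3, 4, 1, 0, 2], [4, 0, 1, 2, 3], [4, 0, 3, 2, 1], [4, 2, 1, 0, 3], [4, 2, 3, 0, 1]]

def l1 : Lv where
  rho := [2, 3, 4, 1, 0]
  sg := [0, 2, 1, 4, 3]
  g := [0, 2, 3, 4, 1]
  h := [0, 2, 1, 4, 3]
  g2 := [0, 3, 2, 1, 4]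
  h2 := [2, 4, 3, 1, 0]
  K := [[1, 4, 3, 0, 2], [3, 0, 1, 4, 2], [3, 2, 0, 4, 1], [3, 4, 0, 2, 1], [3, 4, 1, 0, 2], [4, 0, 1, 2, 3], [4, 0, 3, 2, 1], [4, 2, 1, 0, 3], [4, 2, 3, 0, 1]]

def l2 : Lv where
  rho := [2, 3, 4, 1, 0]
  sg := [0, 4, 3, 1, 2]
  g := [0, 4, 1, 2, 3]
  h := [1, 4, 2, 0, 3]
  g2 := [0, 1, 2, 3, 4]
  h2 := [2, 3, 0, 1, 4]
  K := [[1, 0, 3, 4, 2], [1, 2, 0, 4, 3], [1, 4, 0, 2, 3], [1, 4, 3, 0, 2], [3, 0, 1, 4, 2], [4, 2, 1, 0, 3], [4, 2, 3, 0, 1]]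

def l3 : Lv where
  rho := [1, 0, 3, 4, 2]
  sg := [2, 4, 1, 0, 3]
  g := [2, 4, 0, 1, 3]
  h := [2, 4, 0, 3, 1]
  g2 := [2, 3, 0, 1, 4]
  h2 := [2, 3, 0, 4, 1]
  K := [[2, 3, 4, 1, 0], [3, 2, 4, 1, 0], [3, 4, 0, 2, 1], [3, 4, 1, 2, 0], [4, 2, 0, 1, 3]]

def l4 : Lv where
  rho := [1, 0, 4, 2, 3]
  sg := [2, 3, 0, 4, 1]
  g := [2, 4, 3, 0, 1]
  h := [4, 2, 0, 1, 3]
  g2 := [2, 3, 0, 1, 4]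
  h2 := [2, 3, 4, 1, 0]
  K := [[2, 4, 3, 0, 1], [3, 4, 1, 0, 2], [4, 2, 3, 0, 1]]

def l5 : Lv where
  rho := [1, 0, 3, 4, 2]
  sg := [0, 1, 2, 3, 4]
  g := [0, 1, 2, 3, 4]
  h := [0, 1, 2, 3, 4]
  g2 := [0, 1, 2, 3, 4]
  h2 := [0, 1, 2, 3, 4]
  K := []

def lv : ℕ → Lv
  | 0 => l0
  | 1 => l1
  | 2 => l2
  | 3 => l3
  | 4 => l4
  | _ => l5

/-- the permutation `rho` of level `r` -/
def rhoP : ℕ → Equiv.Perm (Fin 5)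
  | 0 => ⟨![2, 3, 4, 1, 0], ![4, 3, 0, 1, 2], by decide, by decide⟩
  | 1 => ⟨![2, 3, 4, 1, 0], ![4, 3, 0, 1, 2], by decide, by decide⟩
  | 2 => ⟨![2, 3, 4, 1, 0], ![4, 3, 0, 1, 2], by decide, by decide⟩
  | 3 => ⟨![1, 0, 3, 4, 2], ![1, 0, 4, 2, 3], by decide, by decide⟩
  | 4 => ⟨![1, 0, 4, 2, 3], ![1, 0, 3, 4, 2], by decide, by decide⟩
  | _ => ⟨![1, 0, 3, 4, 2], ![1, 0, 4, 2, 3], by decide, by decide⟩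

/-- the permutation `sg` of level `r` -/
def sgP : ℕ → Equiv.Perm (Fin 5)
  | 0 => ⟨![0, 2, 3, 4, 1], ![0, 4, 1, 2, 3], by decide, by decide⟩
  | 1 => ⟨![0, 2, 1, 4, 3], ![0, 2, 1, 4, 3], by decide, by decide⟩
  | 2 => ⟨![0, 4, 3, 1, 2], ![0, 3, 4, 2, 1], by decide, by decide⟩
  | 3 => ⟨![2, 4, 1, 0, 3], ![3, 2, 0, 4, 1], by decide, by decide⟩
  | 4 => ⟨![2, 3, 0, 4, 1], ![2, 4, 0, 1, 3], by decide, by decide⟩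
  | _ => ⟨![0, 1, 2, 3, 4], ![0, 1, 2, 3, 4], by decide, by decide⟩

/-- the permutation `g` of level `r` -/
def gP : ℕ → Equiv.Perm (Fin 5)
  | 0 => ⟨![0, 4, 1, 2, 3], ![0, 2, 3, 4, 1], by decide, by decide⟩
  | 1 => ⟨![0, 2, 3, 4, 1], ![0, 4, 1, 2, 3], by decide, by decide⟩
  | 2 => ⟨![0, 4, 1, 2, 3], ![0, 2, 3, 4, 1], by decide, by decide⟩
  | 3 => ⟨![2, 4, 0, 1, 3], ![2, 3, 0, 4, 1], by decide, by decide⟩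
  | 4 => ⟨![2, 4, 3, 0, 1], ![3, 4, 0, 2, 1], by decide, by decide⟩
  | _ => ⟨![0, 1, 2, 3, 4], ![0, 1, 2, 3, 4], by decide, by decide⟩

/-- the permutation `h` of level `r` -/
def hP : ℕ → Equiv.Perm (Fin 5)
  | 0 => ⟨![1, 2, 0, 4, 3], ![2, 0, 1, 4, 3], by decide, by decide⟩
  | 1 => ⟨![0, 2, 1, 4, 3], ![0, 2, 1, 4, 3], by decide, by decide⟩
  | 2 => ⟨![1, 4, 2, 0, 3], ![3, 0, 2, 4, 1], by decide, by decide⟩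
  | 3 => ⟨![2, 4, 0, 3, 1], ![2, 4, 0, 3, 1], by decide, by decide⟩
  | 4 => ⟨![4, 2, 0, 1, 3], ![2, 3, 1, 4, 0], by decide, by decide⟩
  | _ => ⟨![0, 1, 2, 3, 4], ![0, 1, 2, 3, 4], by decide, by decide⟩

/-- the permutation `g2` of level `r` -/
def g2P : ℕ → Equiv.Perm (Fin 5)
  | 0 => ⟨![1, 0, 3, 2, 4], ![1, 0, 3, 2, 4], by decide, by decide⟩
  | 1 => ⟨![0, 3, 2, 1, 4], ![0, 3, 2, 1, 4], by decide, by decide⟩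
  | 2 => ⟨![0, 1, 2, 3, 4], ![0, 1, 2, 3, 4], by decide, by decide⟩
  | 3 => ⟨![2, 3, 0, 1, 4], ![2, 3, 0, 1, 4], by decide, by decide⟩
  | 4 => ⟨![2, 3, 0, 1, 4], ![2, 3, 0, 1, 4], by decide, by decide⟩
  | _ => ⟨![0, 1, 2, 3, 4], ![0, 1, 2, 3, 4], by decide, by decide⟩

/-- the permutation `h2` of level `r` -/
def h2P : ℕ → Equiv.Perm (Fin 5)
  | 0 => ⟨![3, 0, 1, 2, 4], ![1, 2, 3, 0, 4], by decide, by decide⟩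
  | 1 => ⟨![2, 4, 3, 1, 0], ![4, 3, 0, 2, 1], by decide, by decide⟩
  | 2 => ⟨![2, 3, 0, 1, 4], ![2, 3, 0, 1, 4], by decide, by decide⟩
  | 3 => ⟨![2, 3, 0, 4, 1], ![2, 4, 0, 1, 3], by decide, by decide⟩
  | 4 => ⟨![2, 3, 4, 1, 0], ![4, 3, 0, 1, 2], by decide, by decide⟩
  | _ => ⟨![0, 1, 2, 3, 4], ![0, 1, 2, 3, 4], by decide, by decide⟩

end Pool.Agent.V7H51.PK
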