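import Pool.Agent.V7H51.PK.Check
import Pool.Agent.R489.UPS.Exist
import Pool.Agent.TH455.MDefs
import Pool.Agent.H239R2.Cover.PlanarDefs

set_option autoImplicit false

/-!
# A planar graph with a five-fold cover without a packing
-/

namespace Pool.Agent.V7H51.PK

open Pool.Agent.R489.UPS Pool.Agent.TH455
open Pool.Agent.H239R2.Planar (HasStraightLineDrawing)

/-! ### the stacked triangulation -/

/-- the insertion history -/
def hist (i : ℕ) : ℕ := if i % 3 = 0 then 0 else if i % 3 = 1 then 2 * i - 1 else 2 * i - 2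

theorem hist_lt (i : ℕ) : hist i < 2 * i + 1 := by
  unfold hist
  split_ifs <;> omega

/-- the label of the `k`-th chain vertex -/
def C (k : ℕ) : ℕ := if k = 0 then 2 else 3 * k + 1

theorem hist0 (j : ℕ) : hist (3 * j) = 0 := by unfold hist; rw [if_pos (by omega)]
theorem hist1 (j : ℕ) : hist (3 * j + 1) = 6 * j + 1 := by
  unfold hist; rw [if_neg (by omega), if_pos (by omega)]; omega
theorem hist2 (j : ℕ) : hist (3 * j + 2) = 6 * j + 2 := by
  unfold hist; rw [if_neg (by omega), if_neg (by omega)]; omega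

theorem F_succ (s : ℕ → ℕ) (i j : ℕ) : F s (i + 1) j =
    if j = 2 * i + 1 then ((F s i (s i)).2.1, (F s i (s i)).2.2.1, 4 + i, (F s i (s i)).1)
    else if j = 2 * i + 2 then
      ((F s i (s i)).2.2.1, (F s i (s i)).1, 4 + i, (F s i (s i)).2.1)
    else if j = s i then ((F s i (s i)).1, (F s i (s i)).2.1, 4 + i, (F s i (s i)).2.2.1)
    else F s i j := rfl

theorem face0 (j : ℕ) : (F hist (3 * j) 0).1 = 0 ∧ (F hist (3 * j) 0).2.1 = 1 ∧
    (F hist (3 * j) 0).2.2.1 = C j := by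
  induction j with
  | zero => exact ⟨rfl, rfl, rfl⟩
  | succ j ih =>
    have e3 : F hist (3 * (j + 1)) 0 = F hist (3 * j + 2) 0 := by
      rw [show 3 * (j + 1) = (3 * j + 2) + 1 by ring, F_succ, if_neg (by omega),
        if_neg (by omega), if_neg (by rw [hist2]; omega)]
    have e2 : F hist (3 * j + 2) 0 = F hist (3 * j + 1) 0 := by
      rw [F_succ, if_neg (by omega), if_neg (by omega), if_neg (by rw [hist1]; omega)]
    rw [e3, e2, F_succ, if_neg (by omega), if_neg (by omega), if_pos (hist0 j).symm, hist0]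
    refine ⟨ih.1, ih.2.1, ?_⟩
    simp only [C]
    rw [if_neg (by omega)]
    ring

theorem face1 (j : ℕ) : (F hist (3 * j + 1) (6 * j + 1)).1 = 1 ∧
    (F hist (3 * j + 1) (6 * j + 1)).2.1 = C j ∧
    (F hist (3 * j + 1) (6 * j + 1)).2.2.1 = 4 + 3 * j := by
  rw [F_succ, if_pos (by ring), hist0]
  exact ⟨(face0 j).2.1, (face0 j).2.2, rfl⟩

theorem face2 (j : ℕ) : (F hist (3 * j + 2) (6 * j + 2)).1 = C j ∧
    (F hist (3 * j + 2) (6 * j + 2)).2.1 = 0 ∧
    (F hist (3 * j + 2) (6 * j + 2)).2.2.1 = 4 + 3 * j := by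
  rw [F_succ, if_neg (by omega), if_neg (by omega), if_neg (by rw [hist1]; omega), F_succ,
    if_neg (by omega), if_pos (by ring), hist0]
  exact ⟨(face0 j).2.2, (face0 j).1, rfl⟩

theorem C_succ (j : ℕ) : C (j + 1) = 4 + 3 * j := by
  unfold C; rw [if_neg (by omega)]; ring

/-- chain vertices are adjacent to `0` and `1` -/
theorem adj_C (m k : ℕ) (h : C k < 4 + m) : TAdj hist m (C k) 0 ∧ TAdj hist m (C k) 1 := by
  rcases k with _ | j
  · constructor
    · exact Or.inl ⟨by simp [C], by omega, by simp [C]⟩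
    · exact Or.inl ⟨by simp [C], by omega, by simp [C]⟩
  · rw [C_succ] at h ⊢
    have f := face0 j
    constructor
    · refine Or.inr ⟨3 * j, by omega, Or.inl ⟨rfl, Or.inl ?_⟩⟩
      rw [hist0]; exact f.1.symm
    · refine Or.inr ⟨3 * j, by omega, Or.inl ⟨rfl, Or.inr (Or.inl ?_)⟩⟩
      rw [hist0]; exact f.2.1.symm

theorem adj_CC (m k : ℕ) (h : C (k + 1) < 4 + m) : TAdj hist m (C (k + 1)) (C k) := by
  rw [C_succ] at h ⊢
  refine Or.inr ⟨3 * k, by omega, Or.inl ⟨rfl, Or.inr (Or.inr ?_)⟩⟩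
  rw [hist0]; exact (face0 k).2.2.symm

/-- side vertices adjacent to `1` -/
theorem adj_m (m k : ℕ) (h : 5 + 3 * k < 4 + m) : TAdj hist m (5 + 3 * k) 1 ∧
    TAdj hist m (5 + 3 * k) (C k) ∧ TAdj hist m (5 + 3 * k) (C (k + 1)) := by
  have f := face1 k
  have e : 5 + 3 * k = 4 + (3 * k + 1) := by ring
  rw [C_succ, e]
  refine ⟨?_, ?_, ?_⟩
  · refine Or.inr ⟨3 * k + 1, by omega, Or.inl ⟨rfl, Or.inl ?_⟩⟩
    rw [hist1]; exact f.1.symm
  · refine Or.inr ⟨3 * k + 1, by omega, Or.inl ⟨rfl, Or.inr (Or.inl ?_)⟩⟩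
    rw [hist1]; exact f.2.1.symm
  · refine Or.inr ⟨3 * k + 1, by omega, Or.inl ⟨rfl, Or.inr (Or.inr ?_)⟩⟩
    rw [hist1]; exact f.2.2.symm

/-- side vertices adjacent to `0` -/
theorem adj_p (m k : ℕ) (h : 6 + 3 * k < 4 + m) : TAdj hist m (6 + 3 * k) 0 ∧
    TAdj hist m (6 + 3 * k) (C k) ∧ TAdj hist m (6 + 3 * k) (C (k + 1)) := by
  have f := face2 k
  have e : 6 + 3 * k = 4 + (3 * k + 2) := by ring
  rw [C_succ, e]
  refine ⟨?_, ?_, ?_⟩
  · refine Or.inr ⟨3 * k + 2, by omega, Or.inl ⟨rfl, Or.inr (Or.inl ?_)⟩⟩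
    rw [hist2]; exact f.2.1.symm
  · refine Or.inr ⟨3 * k + 2, by omega, Or.inl ⟨rfl, Or.inl ?_⟩⟩
    rw [hist2]; exact f.1.symm
  · refine Or.inr ⟨3 * k + 2, by omega, Or.inl ⟨rfl, Or.inr (Or.inr ?_)⟩⟩
    rw [hist2]; exact f.2.2.symm

/-! ### the cover -/

/-- the `q`-th permutation -/
noncomputable def E (q : ℕ) : Equiv.Perm (Fin 5) :=
  if h : q < Fintype.card (Equiv.Perm (Fin 5)) then (Fintype.equivFin _).symm ⟨q, h⟩ else 1

theorem exists_E (p : Equiv.Perm (Fin 5)) : ∃ q < 120, E q = p := by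
  have hc : Fintype.card (Equiv.Perm (Fin 5)) = 120 := by
    rw [Fintype.card_perm]; rfl
  refine ⟨(Fintype.equivFin _ p).1, hc ▸ (Fintype.equivFin _ p).2, ?_⟩
  unfold E
  rw [dif_pos (Fintype.equivFin _ p).2]
  simp

/-- the permutation on the edge `uv`, `u < v` -/
noncomputable def f (u v : ℕ) : Equiv.Perm (Fin 5) :=
  if u = 0 then 1
  else if u = 1 then
    if v = 2 then rhoP 0 * (E 0)⁻¹
    else if v % 3 = 1 then rhoP (((v - 4) / 3 + 1) % 6) * (E (((v - 4) / 3 + 1) / 6))⁻¹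
    else (E ((v - 4) / 3 / 6))⁻¹
  else if v % 3 = 1 then sgP ((v - 4) / 3 % 6)
  else if v % 3 = 2 then
    if u + 1 = v then h2P ((v - 4) / 3 % 6) else g2P ((v - 4) / 3 % 6)
  else
    if u + 2 = v then hP ((v - 4) / 3 % 6) else gP ((v - 4) / 3 % 6)

/-- the cover -/
noncomputable def cov (m : ℕ) : MCover (T hist m) 5 where
  M u v i j := (u.1 < v.1 ∧ f u.1 v.1 i = j) ∨ (v.1 < u.1 ∧ f v.1 u.1 j = i)
  symm := by
    rintro u v i j (h | h)
    · exact Or.inr h
    · exact Or.inl h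
  matching := by
    rintro u v _ i j j' (h | h) (h' | h')
    · exact h.2.symm.trans h'.2
    · exact absurd h.1 (Nat.not_lt.mpr h'.1.le)
    · exact absurd h.1 (Nat.not_lt.mpr h'.1.le)
    · exact (f v.1 u.1).injective (h.2.trans h'.2.symm)

theorem C_div (q r : ℕ) : f 1 (C (6 * q + r)) =
    rhoP ((6 * q + r) % 6) * (E ((6 * q + r) / 6))⁻¹ := by
  unfold f
  rw [if_neg (by omega), if_pos rfl]
  rcases h : 6 * q + r with _ | j
  · rw [if_pos (by simp [C])]
  · rw [C_succ, if_neg (by omega), if_pos (by omega)]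
    rw [show (4 + 3 * j - 4) / 3 = j by omega]

theorem C_lt (k : ℕ) : 1 < C k ∧ C k < C (k + 1) := by
  rw [C_succ]
  unfold C
  split_ifs <;> omega

theorem f_CC (k : ℕ) : f (C k) (C (k + 1)) = sgP (k % 6) := by
  have := C_lt k
  unfold f
  rw [if_neg (by omega), if_neg (by omega), C_succ, if_pos (by omega),
    show (4 + 3 * k - 4) / 3 = k by omega]

theorem f_m (k : ℕ) : f 1 (5 + 3 * k) = (E (k / 6))⁻¹ ∧ f (C k) (5 + 3 * k) = g2P (k % 6) ∧
    f (C (k + 1)) (5 + 3 * k) = h2P (k % 6) := by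
  have h1 := C_lt k
  have e : (5 + 3 * k - 4) / 3 = k := by omega
  refine ⟨?_, ?_, ?_⟩
  · unfold f
    rw [if_neg (by omega), if_pos rfl, if_neg (by omega), if_neg (by omega), e]
  · unfold f
    rw [if_neg (by omega), if_neg (by omega), if_neg (by omega), if_pos (by omega),
      if_neg (by rw [C_succ] at h1; omega), e]
  · unfold f
    rw [if_neg (by omega), if_neg (by omega), if_neg (by omega), if_pos (by omega),
      if_pos (by rw [C_succ]; omega), e]

theorem f_p (k : ℕ) : f (C k) (6 + 3 * k) = gP (k % 6) ∧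
    f (C (k + 1)) (6 + 3 * k) = hP (k % 6) := by
  have h1 := C_lt k
  have e : (6 + 3 * k - 4) / 3 = k := by omega
  refine ⟨?_, ?_⟩
  · unfold f
    rw [if_neg (by omega), if_neg (by omega), if_neg (by omega), if_neg (by omega),
      if_neg (by rw [C_succ] at h1; omega), e]
  · unfold f
    rw [if_neg (by omega), if_neg (by omega), if_neg (by omega), if_neg (by omega),
      if_pos (by rw [C_succ]; omega), e]

theorem f_zero (v : ℕ) : f 0 v = 1 := by unfold f; rw [if_pos rfl]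

end Pool.Agent.V7H51.PK
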