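import Pool.Agent.V7H51.PK.Graph

set_option autoImplicit false

/-!
# The cover has no packing
-/

namespace Pool.Agent.V7H51.PK

open Pool.Agent.R489.UPS Pool.Agent.TH455
open Pool.Agent.H239R2.Planar (HasStraightLineDrawing)

/-- the state of the vertex `n` -/
noncomputable def st {m : ℕ} (φ : Fin 5 → Fin (4 + m) → Fin 5)
    (hφ : ∀ v s t, s ≠ t → φ s v ≠ φ t v) (n : ℕ) : Equiv.Perm (Fin 5) :=
  if h : n < 4 + m then
    Equiv.ofBijective (fun t => φ t ⟨n, h⟩) (Finite.injective_iff_bijective.mp
      (fun s t hst => by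
        by_contra hne
        exact hφ ⟨n, h⟩ s t hne hst)) else 1

theorem st_apply {m : ℕ} (φ : Fin 5 → Fin (4 + m) → Fin 5)
    (hφ : ∀ v s t, s ≠ t → φ s v ≠ φ t v) {n : ℕ} (h : n < 4 + m) (t : Fin 5) :
    st φ hφ n t = φ t ⟨n, h⟩ := by
  unfold st
  rw [dif_pos h]
  rfl

theorem no_packing (m : ℕ) (hm : 2160 ≤ m) : ¬ (cov m).HasPacking := by
  rintro ⟨φ, h1, h2⟩
  -- relative states
  let z : ℕ → Equiv.Perm (Fin 5) := fun n => st φ h2 n * (st φ h2 0)⁻¹
  have edge : ∀ u v : ℕ, u < v → v < 4 + m → TAdj hist m v u → ∀ i, z v i ≠ f u v (z u i) := by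
    intro u v huv hv hadj i hc
    have hu : u < 4 + m := by omega
    have := h1 ((st φ h2 0)⁻¹ i) ⟨u, hu⟩ ⟨v, hv⟩ hadj.symm
    apply this
    left
    refine ⟨huv, ?_⟩
    rw [← st_apply φ h2 hu, ← st_apply φ h2 hv]
    exact hc.symm
  have z0 : z 0 = 1 := by simp [z]
  obtain ⟨q, hq, hE⟩ := exists_E (z 1)
  have hC : ∀ r ≤ 5, C (6 * q + r) < 4 + m := by
    intro r hr
    unfold C
    split_ifs <;> omega
  refine no_perms (fun r => z (C (6 * q + r))) (fun r => z (6 + 3 * (6 * q + r)))
    (fun r => z (5 + 3 * (6 * q + r))) ?_ ?_ ?_ ?_ ?_ ?_ ?_ ?_ ?_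
  · intro r hr i
    have hc := C_lt (6 * q + r)
    have := edge 0 _ (by omega) (hC r hr) (adj_C m _ (hC r hr)).1 i
    rw [f_zero, z0] at this
    exact this
  · intro r hr i
    have hc := C_lt (6 * q + r)
    have := edge 1 _ (by omega) (hC r hr) (adj_C m _ (hC r hr)).2 i
    rw [C_div, show (6 * q + r) % 6 = r by omega, show (6 * q + r) / 6 = q by omega, hE] at this
    simpa using this
  · intro r hr i
    have hc := C_lt (6 * q + r)
    have := edge _ _ hc.2 (hC (r + 1) (by omega)) (adj_CC m _ (hC (r + 1) (by omega))) i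
    rw [f_CC, show (6 * q + r) % 6 = r by omega] at this
    exact this
  · intro r hr i
    have hb : 6 + 3 * (6 * q + r) < 4 + m := by omega
    have := edge 0 _ (by omega) hb (adj_p m _ hb).1 i
    rw [f_zero, z0] at this
    exact this
  · intro r hr i
    have hb : 6 + 3 * (6 * q + r) < 4 + m := by omega
    have hc := C_lt (6 * q + r)
    rw [C_succ] at hc
    have := edge (C (6 * q + r)) _ (by omega) hb (adj_p m _ hb).2.1 i
    rw [(f_p _).1, show (6 * q + r) % 6 = r by omega] at this
    exact this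
  · intro r hr i
    have hb : 6 + 3 * (6 * q + r) < 4 + m := by omega
    have := edge (C (6 * q + r + 1)) _ (by rw [C_succ]; omega) hb (adj_p m _ hb).2.2 i
    rw [(f_p _).2, show (6 * q + r) % 6 = r by omega] at this
    exact this
  · intro r hr i
    have hb : 5 + 3 * (6 * q + r) < 4 + m := by omega
    have := edge 1 _ (by omega) hb (adj_m m _ hb).1 i
    rw [(f_m _).1, show (6 * q + r) / 6 = q by omega, hE] at this
    simpa using this
  · intro r hr i
    have hb : 5 + 3 * (6 * q + r) < 4 + m := by omega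
    have hc := C_lt (6 * q + r)
    rw [C_succ] at hc
    have := edge (C (6 * q + r)) _ (by omega) hb (adj_m m _ hb).2.1 i
    rw [(f_m _).2.1, show (6 * q + r) % 6 = r by omega] at this
    exact this
  · intro r hr i
    have hb : 5 + 3 * (6 * q + r) < 4 + m := by omega
    have := edge (C (6 * q + r + 1)) _ (by rw [C_succ]; omega) hb (adj_m m _ hb).2.2 i
    rw [(f_m _).2.2, show (6 * q + r) % 6 = r by omega] at this
    exact this

/-! ### planarity -/

theorem drawing_of_isDrawing {V : Type} {G : SimpleGraph V} {p : V → ℝ × ℝ}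
    (h : IsDrawing G p) : HasStraightLineDrawing G := by
  refine ⟨p, h.1, ?_, ?_⟩
  · intro u v w huv hw
    by_contra hc
    push Not at hc
    exact h.2.1 u v w huv hc.1 hc.2 hw
  · intro u v x y huv hxy hne q hq hq'
    have := h.2.2 u v x y huv hxy hne ⟨hq, hq'⟩
    simp only [Set.mem_inter_iff, Set.mem_insert_iff, Set.mem_singleton_iff] at this
    obtain ⟨h1 | h1, h2 | h2⟩ := this
    · exact ⟨u, Or.inl rfl, Or.inl (h.1 (h1.symm.trans h2)), h1⟩
    · exact ⟨u, Or.inl rfl, Or.inr (h.1 (h1.symm.trans h2)), h1⟩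
    · exact ⟨v, Or.inr rfl, Or.inl (h.1 (h1.symm.trans h2)), h1⟩
    · exact ⟨v, Or.inr rfl, Or.inr (h.1 (h1.symm.trans h2)), h1⟩

theorem T_drawing (m : ℕ) : HasStraightLineDrawing (T hist m) := by
  obtain ⟨p, hp⟩ := T_planar (s := hist) (m := m) (fun i _ => hist_lt i)
  exact drawing_of_isDrawing hp

/-! ### monotonicity -/

/-- If every `k`-fold cover has a packing, so does every `(k+1)`-fold cover. -/
theorem packable_succ {V : Type} (G : SimpleGraph V) (k : ℕ) (hk : 1 ≤ k)
    (h : CorrPackable G k) : CorrPackable G (k + 1) := by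
  intro Cv
  -- one colouring
  obtain ⟨φ, h1, -⟩ := h
    { M := fun u v i j => Cv.M u v i.castSucc j.castSucc
      symm := fun u v i j hh => Cv.symm _ _ _ _ hh
      matching := fun u v huv i j j' hh hh' =>
        Fin.castSucc_injective _ (Cv.matching u v huv _ _ _ hh hh') }
  let c : V → Fin (k + 1) := fun v => (φ ⟨0, hk⟩ v).castSucc
  have hc : ∀ u v, G.Adj u v → ¬ Cv.M u v (c u) (c v) := fun u v huv => h1 _ u v huv
  obtain ⟨ψ, h3, h4⟩ := h
    { M := fun u v i j => Cv.M u v ((c u).succAbove i) ((c v).succAbove j)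
      symm := fun u v i j hh => Cv.symm _ _ _ _ hh
      matching := fun u v huv i j j' hh hh' =>
        Fin.succAbove_right_injective (Cv.matching u v huv _ _ _ hh hh') }
  refine ⟨Fin.cons c (fun t v => (c v).succAbove (ψ t v)), ?_, ?_⟩
  · intro t u v huv
    refine Fin.cases ?_ (fun t => ?_) t
    · exact hc u v huv
    · exact h3 t u v huv
  · intro v s t hst
    revert hst
    refine Fin.cases ?_ (fun s => ?_) s
    · refine Fin.cases ?_ (fun t => ?_) t
      · intro hst; exact absurd rfl hst
      · intro _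
        simp only [Fin.cons_zero, Fin.cons_succ]
        exact (Fin.succAbove_ne _ _).symm
    · refine Fin.cases ?_ (fun t => ?_) t
      · intro _
        simp only [Fin.cons_zero, Fin.cons_succ]
        exact Fin.succAbove_ne _ _
      · intro hst
        simp only [Fin.cons_succ]
        exact fun he => h4 v s t (fun e => hst (by rw [e])) (Fin.succAbove_right_injective he)

theorem packable_mono {V : Type} (G : SimpleGraph V) {k l : ℕ} (hk : 1 ≤ k) (hkl : k ≤ l)
    (h : CorrPackable G k) : CorrPackable G l := by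
  induction l, hkl using Nat.le_induction with
  | base => exact h
  | succ l hl ih => exact packable_succ G l (hk.trans hl) ih

/-- No `k ≤ 5` suffices for the graph. -/
theorem not_packable (m : ℕ) (hm : 2160 ≤ m) (k : ℕ) (h1 : 1 ≤ k) (h5 : k ≤ 5) :
    ¬ CorrPackable (T hist m) k := by
  intro h
  exact no_packing m hm (packable_mono _ h1 h5 h (cov m))

end Pool.Agent.V7H51.PK
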