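import Pool.Agent.V7H51.PK.Main

set_option autoImplicit false

/-!
# Degenerate graphs: `2d` colours suffice
-/

namespace Pool.Agent.V7H51.PK

open Pool.Agent.R489.UPS Pool.Agent.TH455
open Pool.Agent.H239R2.Planar (HasStraightLineDrawing)

/-- `G` is `d`-degenerate: its vertices can be numbered so that every vertex has at most `d`
neighbours with a smaller number. -/
def Degenerate {V : Type} (G : SimpleGraph V) (d : ℕ) : Prop :=
  ∃ f : V → ℕ, Function.Injective f ∧ ∀ v, {u | G.Adj u v ∧ f u < f v}.encard ≤ d

open Classical in
/-- Hall step. -/
theorem hall_step {W : Type} (d : ℕ) (B : Finset W) (hB : B.card ≤ d)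
    (X : W → Fin (2 * d) → Fin (2 * d) → Prop)
    (h1 : ∀ u ∈ B, ∀ t c c', X u t c → X u t c' → c = c')
    (h2 : ∀ u ∈ B, ∀ t t' c, X u t c → X u t' c → t = t') :
    ∃ g : Fin (2 * d) → Fin (2 * d), Function.Injective g ∧ ∀ u ∈ B, ∀ t, ¬ X u t (g t) := by
  let al : Fin (2 * d) → Finset (Fin (2 * d)) := fun t =>
    Finset.univ.filter (fun c => ∀ u ∈ B, ¬ X u t c)
  have bad1 : ∀ t, (Finset.univ.filter (fun c => ∃ u ∈ B, X u t c)).card ≤ d := by
    intro t
    refine le_trans ?_ hB
    by_cases hne : (Finset.univ.filter (fun c => ∃ u ∈ B, X u t c)).Nonempty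
    · obtain ⟨c0, hc0⟩ := hne
      rw [Finset.mem_filter] at hc0
      let F : Fin (2 * d) → W := fun c => if h : ∃ u ∈ B, X u t c then h.choose else hc0.2.choose
      refine Finset.card_le_card_of_injOn F ?_ ?_
      · intro c hc
        rw [Finset.mem_coe, Finset.mem_filter] at hc
        simp only [F]
        rw [dif_pos hc.2]
        exact hc.2.choose_spec.1
      · intro c hc c' hc' he
        rw [Finset.mem_coe, Finset.mem_filter] at hc hc'
        simp only [F] at he
        rw [dif_pos hc.2, dif_pos hc'.2] at he
        have a := hc.2.choose_spec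
        have b := hc'.2.choose_spec
        rw [← he] at b
        exact h1 _ a.1 t c c' a.2 b.2
    · rw [Finset.not_nonempty_iff_eq_empty] at hne
      rw [hne]; simp
  have bad2 : ∀ c, (Finset.univ.filter (fun t => ∃ u ∈ B, X u t c)).card ≤ d := by
    intro c
    refine le_trans ?_ hB
    by_cases hne : (Finset.univ.filter (fun t => ∃ u ∈ B, X u t c)).Nonempty
    · obtain ⟨c0, hc0⟩ := hne
      rw [Finset.mem_filter] at hc0
      let F : Fin (2 * d) → W := fun t => if h : ∃ u ∈ B, X u t c then h.choose else hc0.2.choose
      refine Finset.card_le_card_of_injOn F ?_ ?_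
      · intro t ht
        rw [Finset.mem_coe, Finset.mem_filter] at ht
        simp only [F]
        rw [dif_pos ht.2]
        exact ht.2.choose_spec.1
      · intro t ht t' ht' he
        rw [Finset.mem_coe, Finset.mem_filter] at ht ht'
        simp only [F] at he
        rw [dif_pos ht.2, dif_pos ht'.2] at he
        have a := ht.2.choose_spec
        have b := ht'.2.choose_spec
        rw [← he] at b
        exact h2 _ a.1 t t' c a.2 b.2
    · rw [Finset.not_nonempty_iff_eq_empty] at hne
      rw [hne]; simp
  have hall : ∀ S : Finset (Fin (2 * d)), S.card ≤ (S.biUnion al).card := by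
    intro S
    by_cases hS : S.card ≤ d
    · rcases S.eq_empty_or_nonempty with rfl | ⟨t, ht⟩
      · simp
      · have h3 : (al t).card + (Finset.univ.filter (fun c => ∃ u ∈ B, X u t c)).card
            = 2 * d := by
          have := Finset.card_filter_add_card_filter_not (s := (Finset.univ : Finset (Fin (2 * d))))
            (fun c => ∀ u ∈ B, ¬ X u t c)
          simp only [Finset.card_univ, Fintype.card_fin] at this
          have e : (Finset.univ.filter (fun c => ¬ ∀ u ∈ B, ¬ X u t c)) =
              Finset.univ.filter (fun c => ∃ u ∈ B, X u t c) := by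
            ext c
            simp
          rw [e] at this
          exact this
        have h4 := bad1 t
        have h5 : (al t).card ≤ (S.biUnion al).card :=
          Finset.card_le_card (Finset.subset_biUnion_of_mem al ht)
        omega
    · have h6 : S.biUnion al = Finset.univ := by
        rw [Finset.eq_univ_iff_forall]
        intro c
        by_contra hc
        have h7 : S ⊆ Finset.univ.filter (fun t => ∃ u ∈ B, X u t c) := by
          intro t ht
          rw [Finset.mem_filter]
          refine ⟨Finset.mem_univ _, ?_⟩
          by_contra hcon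
          push Not at hcon
          exact hc (Finset.mem_biUnion.mpr ⟨t, ht, by
            simp only [al, Finset.mem_filter, Finset.mem_univ, true_and]
            exact hcon⟩)
        have h8 := Finset.card_le_card h7
        have h9 := bad2 c
        omega
      rw [h6]
      exact Finset.card_le_univ _
  obtain ⟨g, hg, hg'⟩ := (Finset.all_card_le_biUnion_card_iff_exists_injective al).mp hall
  refine ⟨g, hg, ?_⟩
  intro u hu t
  have := hg' t
  simp only [al, Finset.mem_filter, Finset.mem_univ, true_and] at this
  exact this u hu

/-- `d`-degenerate graphs have correspondence packing number at most `2 d` (`d ≥ 1`). -/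
theorem packable_of_degenerate {V : Type} [Finite V] (G : SimpleGraph V) (d : ℕ)
    (hG : Degenerate G d) : CorrPackable G (2 * d) := by
  classical
  intro Cv
  obtain ⟨f, hf, hd⟩ := hG
  have key : ∀ n : ℕ, ∃ φ : Fin (2 * d) → V → Fin (2 * d),
      (∀ t u v, G.Adj u v → f u < n → f v < n → ¬ Cv.M u v (φ t u) (φ t v)) ∧
      ∀ v s t, s ≠ t → φ s v ≠ φ t v := by
    intro n
    induction n with
    | zero =>
      exact ⟨fun t _ => t, fun t u v _ h => absurd h (Nat.not_lt_zero _), fun v s t h => h⟩
    | succ n ih =>
      obtain ⟨φ, h1, h2⟩ := ih
      by_cases hv : ∃ v, f v = n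
      · obtain ⟨v, hv⟩ := hv
        have hfin : {u | G.Adj u v ∧ f u < f v}.Finite := Set.toFinite _
        let B : Finset V := hfin.toFinset
        have hB : B.card ≤ d := by
          have := hd v
          rw [hfin.encard_eq_coe_toFinset_card] at this
          exact_mod_cast this
        obtain ⟨g, hg1, hg2⟩ := hall_step d B hB (fun u t c => Cv.M u v (φ t u) c)
          (by
            intro u hu t c c' ha hb
            have hu' : G.Adj u v ∧ f u < f v := by simpa [B] using hu
            exact Cv.matching u v hu'.1 _ _ _ ha hb)
          (by
            intro u hu t t' c ha hb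
            have hu' : G.Adj u v ∧ f u < f v := by simpa [B] using hu
            have := Cv.matching v u hu'.1.symm _ _ _ (Cv.symm _ _ _ _ ha) (Cv.symm _ _ _ _ hb)
            by_contra hne
            exact h2 u t t' hne this)
        refine ⟨fun t => Function.update (φ t) v (g t), ?_, ?_⟩
        · intro t u w huw hu hw
          beta_reduce
          by_cases e1 : u = v
          · subst e1
            have hwu : w ≠ u := huw.ne'
            rw [Function.update_self, Function.update_of_ne hwu]
            have hwlt : f w < f u := by
              rcases Nat.lt_succ_iff_lt_or_eq.mp hw with h | h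
              · omega
              · exact absurd (hf (h.trans hv.symm)) hwu
            have := hg2 w (by simp [B, huw.symm, hwlt]) t
            intro hc
            exact this (Cv.symm _ _ _ _ hc)
          · by_cases e2 : w = v
            · subst e2
              rw [Function.update_self, Function.update_of_ne e1]
              have hult : f u < f w := by
                rcases Nat.lt_succ_iff_lt_or_eq.mp hu with h | h
                · omega
                · exact absurd (hf (h.trans hv.symm)) e1
              exact hg2 u (by simp [B, huw, hult]) t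
            · rw [Function.update_of_ne e1, Function.update_of_ne e2]
              apply h1 t u w huw
              · rcases Nat.lt_succ_iff_lt_or_eq.mp hu with h | h
                · exact h
                · exact absurd (hf (h.trans hv.symm)) e1
              · rcases Nat.lt_succ_iff_lt_or_eq.mp hw with h | h
                · exact h
                · exact absurd (hf (h.trans hv.symm)) e2
        · intro w s t hst
          beta_reduce
          by_cases e : w = v
          · subst e
            rw [Function.update_self, Function.update_self]
            exact fun h => hst (hg1 h)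
          · rw [Function.update_of_ne e, Function.update_of_ne e]
            exact h2 w s t hst
      · refine ⟨φ, ?_, h2⟩
        intro t u w huw hu hw
        push Not at hv
        exact h1 t u w huw (by have := hv u; omega) (by have := hv w; omega)
  obtain ⟨N, hN⟩ : ∃ N, ∀ v, f v < N := by
    obtain ⟨N, hN⟩ := (Set.finite_range f).bddAbove
    exact ⟨N + 1, fun v => Nat.lt_succ_of_le (hN ⟨v, rfl⟩)⟩
  obtain ⟨φ, h1, h2⟩ := key N
  exact ⟨φ, fun t u v huv => h1 t u v huv (hN u) (hN v), h2⟩

theorem T_degenerate (m : ℕ) : Degenerate (T hist m) 3 := by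
  refine ⟨fun v => v.1, Fin.val_injective, ?_⟩
  intro v
  obtain ⟨a, b, c, habc⟩ : ∃ a b c : ℕ, ∀ u : Fin (4 + m), (T hist m).Adj u v → u.1 < v.1 →
      u.1 = a ∨ u.1 = b ∨ u.1 = c := by
    by_cases hv : v.1 < 4
    · exact ⟨0, 1, 2, fun u _ hlt => by omega⟩
    · refine ⟨(F hist (v.1 - 4) (hist (v.1 - 4))).1, (F hist (v.1 - 4) (hist (v.1 - 4))).2.1,
        (F hist (v.1 - 4) (hist (v.1 - 4))).2.2.1, ?_⟩
      intro u huv hlt
      rcases huv with h | ⟨i, _, h | h⟩
      · omega
      · exfalso
        have := F_lt (s := hist) i (hist i)
        omega
      · have : i = v.1 - 4 := by omega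
        rw [this] at h
        exact h.2
  have hsub : {u : Fin (4 + m) | (T hist m).Adj u v ∧ u.1 < v.1} ⊆
      (Fin.val ⁻¹' ({a, b, c} : Set ℕ)) := by
    intro u hu
    simp only [Set.mem_preimage, Set.mem_insert_iff, Set.mem_singleton_iff]
    exact habc u hu.1 hu.2
  refine (Set.encard_le_encard hsub).trans ?_
  have h3 : (Fin.val ⁻¹' ({a, b, c} : Set ℕ) : Set (Fin (4 + m))).encard ≤
      ({a, b, c} : Set ℕ).encard := by
    rw [← (Fin.val_injective.injOn).encard_image]
    exact Set.encard_le_encard (Set.image_preimage_subset _ _)
  refine h3.trans ?_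
  refine (Set.encard_insert_le _ _).trans ?_
  refine (add_le_add_left (Set.encard_insert_le _ _) 1).trans ?_
  rw [Set.encard_singleton]
  norm_num

end Pool.Agent.V7H51.PK
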